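import Pool.Agent.Work.MP_db9399_all.Interface
import Pool.Agent.Work.MP_db9399_co.Konig

/-!
# MP_db9399, all scales: the finish with a bipartite reserve and forbidden colours at sparse vertices

A bipartite graph with degrees at most `r` (and `r + 1` on a sparse set `D`) has an edge colouring
with `r + 1` colours which avoids given colours at the vertices of `U`.
-/

set_option autoImplicit false

namespace Pool.Agent.Work.MP_db9399_fh

open Finset Classical
open Pool.Agent.Work.MP_db9399_all (nb)

universe u v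

theorem mem_nb {V : Type u} [Fintype V] (G : SimpleGraph V) (v w : V) :
    w ∈ nb G v ↔ G.Adj v w := by
  unfold nb
  rw [Finset.mem_filter]
  exact ⟨fun h => h.2, fun h => ⟨Finset.mem_univ _, h⟩⟩

/-- Hall: a set `D` of vertices with at least `s ≥ 1` neighbours in `W` can be matched into `W` if
every vertex has at most `s` neighbours in `D`. -/
theorem hall_reg {V : Type u} [Fintype V] (R : SimpleGraph V) (D W : Finset V) (s : ℕ)
    (hs : 1 ≤ s) (h1 : ∀ v, (nb R v ∩ D).card ≤ s) (h2 : ∀ v ∈ D, s ≤ (nb R v ∩ W).card) :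
    ∃ f : V → V, (∀ v ∈ D, R.Adj v (f v) ∧ f v ∈ W) ∧
      ∀ v ∈ D, ∀ v' ∈ D, f v = f v' → v = v' := by
  let t : D → Finset V := fun v => nb R v.1 ∩ W
  have hall : ∀ T : Finset D, T.card ≤ (T.biUnion t).card := by
    intro T
    have h3 : T.card * s ≤ ∑ v ∈ T, (t v).card := by
      rw [← smul_eq_mul, ← Finset.sum_const]
      exact Finset.sum_le_sum fun v _ => h2 v.1 v.2
    have h4 : ∑ v ∈ T, (t v).card = ∑ w ∈ T.biUnion t, (T.filter (fun v => w ∈ t v)).card := by
      have h5 : ∀ v ∈ T, (t v).card = ∑ w ∈ T.biUnion t, if w ∈ t v then 1 else 0 := by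
        intro v hv
        rw [← Finset.card_filter]
        congr 1
        ext w
        rw [Finset.mem_filter]
        exact ⟨fun h => ⟨Finset.mem_biUnion.2 ⟨v, hv, h⟩, h⟩, fun h => h.2⟩
      rw [Finset.sum_congr rfl h5, Finset.sum_comm]
      refine Finset.sum_congr rfl fun w _ => ?_
      rw [Finset.card_filter]
    have h6 : ∀ w ∈ T.biUnion t, (T.filter (fun v => w ∈ t v)).card ≤ s := by
      intro w _
      refine le_trans ?_ (h1 w)
      refine Finset.card_le_card_of_injOn (fun v => v.1) ?_ ?_
      · intro v hv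
        have h7 := (Finset.mem_filter.1 hv).2
        have h8 := (mem_nb R v.1 w).1 (Finset.mem_inter.1 h7).1
        exact Finset.mem_inter.2 ⟨(mem_nb R w v.1).2 h8.symm, v.2⟩
      · intro v _ v' _ h
        exact Subtype.ext h
    have h7 : T.card * s ≤ (T.biUnion t).card * s := by
      rw [← smul_eq_mul (T.biUnion t).card, ← Finset.sum_const]
      exact h3.trans (h4.le.trans (Finset.sum_le_sum h6))
    exact Nat.le_of_mul_le_mul_right h7 (by omega)
  obtain ⟨f, hf, hft⟩ := (Finset.all_card_le_biUnion_card_iff_exists_injective t).1 hall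
  refine ⟨fun v => if h : v ∈ D then f ⟨v, h⟩ else v, fun v hv => ?_, fun v hv v' hv' h => ?_⟩
  · simp only [dif_pos hv]
    have h3 := hft ⟨v, hv⟩
    exact ⟨(mem_nb R v _).1 (Finset.mem_inter.1 h3).1, (Finset.mem_inter.1 h3).2⟩
  · simp only [dif_pos hv, dif_pos hv'] at h
    exact congrArg Subtype.val (hf h)

theorem finH {V : Type u} [Fintype V] {C : Type v} (R : SimpleGraph V) (sd : V → Bool)
    (hbip : ∀ v w, R.Adj v w → sd v ≠ sd w) (U D : Finset V) (r s : ℕ) (Fb : V → Finset C)
    (Pal : Finset C) (hPal : Pal.card = r + 1) (hU : ∀ u ∈ U, sd u = false)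
    (hdeg : ∀ v, v ∉ D → (nb R v).card ≤ r) (hdegD : ∀ v ∈ D, (nb R v).card ≤ r + 1)
    (hUdeg : ∀ u ∈ U, (nb R u).card ≤ (Pal \ Fb u).card)
    (hUN : ∀ y, ∀ u ∈ U, ∀ u' ∈ U, R.Adj y u → R.Adj y u' → u = u')
    (hDU : ∀ v ∈ D, v ∉ U ∧ ∀ u ∈ U, ¬ R.Adj v u) (hDs : ∀ v, (nb R v ∩ D).card ≤ s)
    (hDn : ∀ v ∈ D, s ≤ ((nb R v).filter (fun w => w ∉ D ∧ w ∉ U ∧ ∀ u ∈ U,
      ¬ R.Adj w u)).card) :
    ∃ t : V → V → C, (∀ v w, t v w = t w v) ∧ (∀ v w, R.Adj v w → t v w ∈ Pal) ∧
      (∀ u ∈ U, ∀ w, R.Adj u w → t u w ∉ Fb u) ∧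
      ∀ v w w', R.Adj v w → R.Adj v w' → w ≠ w' → t v w ≠ t v w' := by
  have : Nonempty C := by
    obtain ⟨c, -⟩ : Pal.Nonempty := by rw [← Finset.card_pos]; omega
    exact ⟨c⟩
  -- the matching which saturates the vertices of degree `r + 1`
  obtain ⟨f, hf1, hf2⟩ : ∃ f : V → V, (∀ v, (nb R v).card = r + 1 → R.Adj v (f v) ∧ f v ∉ D ∧
      f v ∉ U ∧ ∀ u ∈ U, ¬ R.Adj (f v) u) ∧ ∀ v v', (nb R v).card = r + 1 →
      (nb R v').card = r + 1 → f v = f v' → v = v' := by
    have hmD : ∀ v, (nb R v).card = r + 1 → v ∈ D := by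
      intro v hv
      by_contra h
      have := hdeg v h
      omega
    by_cases hs : 1 ≤ s
    · obtain ⟨f, hf1, hf2⟩ := hall_reg R (D.filter (fun v => (nb R v).card = r + 1))
        (univ.filter (fun w => w ∉ D ∧ w ∉ U ∧ ∀ u ∈ U, ¬ R.Adj w u)) s hs
        (fun v => (Finset.card_le_card (Finset.inter_subset_inter_left
          (Finset.filter_subset _ _))).trans (hDs v))
        (by
          intro v hv
          refine (hDn v (Finset.mem_filter.1 hv).1).trans (le_of_eq ?_)
          congr 1
          ext w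
          rw [Finset.mem_filter, Finset.mem_inter, Finset.mem_filter]
          exact ⟨fun h => ⟨h.1, Finset.mem_univ _, h.2⟩, fun h => ⟨h.1, h.2.2⟩⟩)
      refine ⟨f, fun v hv => ?_, fun v v' hv hv' h => ?_⟩
      · obtain ⟨h1, h2⟩ := hf1 v (Finset.mem_filter.2 ⟨hmD v hv, hv⟩)
        exact ⟨h1, (Finset.mem_filter.1 h2).2⟩
      · exact hf2 v (Finset.mem_filter.2 ⟨hmD v hv, hv⟩) v'
          (Finset.mem_filter.2 ⟨hmD v' hv', hv'⟩) h
    · refine ⟨fun v => v, fun v hv => ?_, fun v v' _ _ h => h⟩
      exfalso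
      obtain ⟨w, hw⟩ : (nb R v).Nonempty := by rw [← Finset.card_pos]; omega
      have h1 := (mem_nb R v w).1 hw
      have h2 : v ∈ nb R w ∩ D := Finset.mem_inter.2 ⟨(mem_nb R w v).2 h1.symm, hmD v hv⟩
      have h3 := Finset.card_pos.2 ⟨v, h2⟩
      have h4 := hDs w
      omega
  have hD : ∀ v, (nb R v).card = r + 1 → v ∈ D := by
    intro v hv
    by_contra h
    have := hdeg v h
    omega
  have hr1 : ∀ v, (nb R v).card ≤ r + 1 := by
    intro v
    by_cases h : v ∈ D
    · exact hdegD v h
    · exact (hdeg v h).trans (Nat.le_succ r)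
  set S : Finset (V × V) := univ.filter (fun e => R.Adj e.1 e.2 ∧ sd e.1 = false) with hS
  have hmS : ∀ e, e ∈ S ↔ R.Adj e.1 e.2 ∧ sd e.1 = false := by
    intro e
    rw [hS, Finset.mem_filter]
    exact ⟨fun h => h.2, fun h => ⟨Finset.mem_univ _, h⟩⟩
  set M : Finset (V × V) := S.filter (fun e => ((nb R e.1).card = r + 1 ∧ f e.1 = e.2) ∨
    ((nb R e.2).card = r + 1 ∧ f e.2 = e.1)) with hM
  have hmM : ∀ e, e ∈ M ↔ e ∈ S ∧ (((nb R e.1).card = r + 1 ∧ f e.1 = e.2) ∨
    ((nb R e.2).card = r + 1 ∧ f e.2 = e.1)) := by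
    intro e
    rw [hM, Finset.mem_filter]
  have hMU : ∀ e ∈ M, e.1 ∉ U ∧ e.2 ∉ U ∧ (∀ u ∈ U, ¬ R.Adj e.1 u) ∧ ∀ u ∈ U, ¬ R.Adj e.2 u := by
    intro e he
    rcases ((hmM e).1 he).2 with ⟨h1, h2⟩ | ⟨h1, h2⟩
    · obtain ⟨h3, h4, h5, h6⟩ := hf1 e.1 h1
      obtain ⟨h7, h8⟩ := hDU e.1 (hD e.1 h1)
      rw [h2] at h5 h6
      exact ⟨h7, h5, h8, h6⟩
    · obtain ⟨h3, h4, h5, h6⟩ := hf1 e.2 h1
      obtain ⟨h7, h8⟩ := hDU e.2 (hD e.2 h1)
      rw [h2] at h5 h6
      exact ⟨h5, h7, h6, h8⟩
  have hM1 : ∀ e ∈ M, ∀ e' ∈ M, e.1 = e'.1 → e = e' := by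
    intro e he e' he' h
    rcases ((hmM e).1 he).2 with ⟨h1, h2⟩ | ⟨h1, h2⟩ <;>
      rcases ((hmM e').1 he').2 with ⟨h3, h4⟩ | ⟨h3, h4⟩
    · exact Prod.ext h (by rw [← h2, ← h4, h])
    · exact absurd (hD e.1 h1) (by rw [h, ← h4]; exact (hf1 e'.2 h3).2.1)
    · exact absurd (hD e'.1 h3) (by rw [← h, ← h2]; exact (hf1 e.2 h1).2.1)
    · exact Prod.ext h (hf2 _ _ h1 h3 (by rw [h2, h4, h]))
  have hM2 : ∀ e ∈ M, ∀ e' ∈ M, e.2 = e'.2 → e = e' := by
    intro e he e' he' h
    rcases ((hmM e).1 he).2 with ⟨h1, h2⟩ | ⟨h1, h2⟩ <;>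
      rcases ((hmM e').1 he').2 with ⟨h3, h4⟩ | ⟨h3, h4⟩
    · exact Prod.ext (hf2 _ _ h1 h3 (by rw [h2, h4, h])) h
    · exact absurd (hD e'.2 h3) (by rw [← h, ← h2]; exact (hf1 e.1 h1).2.1)
    · exact absurd (hD e.2 h1) (by rw [h, ← h4]; exact (hf1 e'.1 h3).2.1)
    · exact Prod.ext (by rw [← h2, ← h4, h]) h
  -- degrees of the rest
  have hx : ∀ v, ((S \ M).filter (fun e => e.1 = v)).card ≤ r := by
    intro v
    by_cases hv : (nb R v).card = r + 1
    · by_cases hs : sd v = false
      · have h1 : ((S \ M).filter (fun e => e.1 = v)).card ≤ ((nb R v).erase (f v)).card := by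
          refine Finset.card_le_card_of_injOn (fun e => e.2) ?_ ?_
          · intro e he
            obtain ⟨h2, h3⟩ := Finset.mem_filter.1 he
            obtain ⟨h4, h5⟩ := Finset.mem_sdiff.1 h2
            refine Finset.mem_erase.2 ⟨fun h6 => h5 ?_, (mem_nb R v _).2 ?_⟩
            · refine (hmM e).2 ⟨h4, Or.inl ⟨by rw [h3]; exact hv, by rw [h3]; exact h6.symm⟩⟩
            · rw [← h3]
              exact ((hmS e).1 h4).1
          · intro e he e' he' h
            exact Prod.ext ((Finset.mem_filter.1 he).2.trans (Finset.mem_filter.1 he').2.symm) h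
        rw [Finset.card_erase_of_mem ((mem_nb R v _).2 (hf1 v hv).1), hv] at h1
        omega
      · have h1 : (S \ M).filter (fun e => e.1 = v) = ∅ := by
          rw [Finset.filter_eq_empty_iff]
          intro e he h
          have := ((hmS e).1 (Finset.mem_sdiff.1 he).1).2
          rw [h] at this
          exact hs this
        rw [h1]
        exact Nat.zero_le _
    · have h1 : ((S \ M).filter (fun e => e.1 = v)).card ≤ (nb R v).card := by
        refine Finset.card_le_card_of_injOn (fun e => e.2) ?_ ?_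
        · intro e he
          obtain ⟨h2, h3⟩ := Finset.mem_filter.1 he
          refine (mem_nb R v _).2 ?_
          rw [← h3]
          exact ((hmS e).1 (Finset.mem_sdiff.1 h2).1).1
        · intro e he e' he' h
          exact Prod.ext ((Finset.mem_filter.1 he).2.trans (Finset.mem_filter.1 he').2.symm) h
      have := hr1 v
      omega
  have hy : ∀ v, ((S \ M).filter (fun e => e.2 = v)).card ≤ r := by
    intro v
    by_cases hv : (nb R v).card = r + 1
    · by_cases hs : sd v = false
      · have h1 : (S \ M).filter (fun e => e.2 = v) = ∅ := by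
          rw [Finset.filter_eq_empty_iff]
          intro e he h
          have h2 := (hmS e).1 (Finset.mem_sdiff.1 he).1
          have h3 := hbip _ _ h2.1
          rw [h2.2, h, hs] at h3
          exact h3 rfl
        rw [h1]
        exact Nat.zero_le _
      · have h1 : ((S \ M).filter (fun e => e.2 = v)).card ≤ ((nb R v).erase (f v)).card := by
          refine Finset.card_le_card_of_injOn (fun e => e.1) ?_ ?_
          · intro e he
            obtain ⟨h2, h3⟩ := Finset.mem_filter.1 he
            obtain ⟨h4, h5⟩ := Finset.mem_sdiff.1 h2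
            refine Finset.mem_erase.2 ⟨fun h6 => h5 ?_, (mem_nb R v _).2 ?_⟩
            · refine (hmM e).2 ⟨h4, Or.inr ⟨by rw [h3]; exact hv, by rw [h3]; exact h6.symm⟩⟩
            · rw [← h3]
              exact ((hmS e).1 h4).1.symm
          · intro e he e' he' h
            exact Prod.ext h ((Finset.mem_filter.1 he).2.trans (Finset.mem_filter.1 he').2.symm)
        rw [Finset.card_erase_of_mem ((mem_nb R v _).2 (hf1 v hv).1), hv] at h1
        omega
    · have h1 : ((S \ M).filter (fun e => e.2 = v)).card ≤ (nb R v).card := by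
        refine Finset.card_le_card_of_injOn (fun e => e.1) ?_ ?_
        · intro e he
          obtain ⟨h2, h3⟩ := Finset.mem_filter.1 he
          refine (mem_nb R v _).2 ?_
          rw [← h3]
          exact ((hmS e).1 (Finset.mem_sdiff.1 h2).1).1.symm
        · intro e he e' he' h
          exact Prod.ext h ((Finset.mem_filter.1 he).2.trans (Finset.mem_filter.1 he').2.symm)
      have := hr1 v
      omega
  obtain ⟨κ, hκ1, hκ2⟩ := MP_db9399_co.konig (fun e : V × V => e.1) (fun e => e.2) r (S \ M) hx hy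
  set κ' : V × V → ℕ := fun e => if e ∈ M then 0 else κ e + 1 with hκ'
  have hκM : ∀ e ∈ M, κ' e = 0 := fun e he => if_pos he
  have hκN : ∀ e, e ∉ M → κ' e = κ e + 1 := fun e he => if_neg he
  have hκr : ∀ e ∈ S, κ' e ≤ r := by
    intro e he
    by_cases h : e ∈ M
    · rw [hκM e h]
      exact Nat.zero_le _
    · rw [hκN e h]
      exact hκ1 e (Finset.mem_sdiff.2 ⟨he, h⟩)
  have hprop : ∀ e ∈ S, ∀ e' ∈ S, (e.1 = e'.1 ∨ e.2 = e'.2) → κ' e = κ' e' → e = e' := by
    intro e he e' he' h h'
    by_cases h1 : e ∈ M <;> by_cases h2 : e' ∈ M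
    · rcases h with h | h
      · exact hM1 e h1 e' h2 h
      · exact hM2 e h1 e' h2 h
    · rw [hκM e h1, hκN e' h2] at h'
      omega
    · rw [hκN e h1, hκM e' h2] at h'
      omega
    · by_contra hne
      rw [hκN e h1, hκN e' h2] at h'
      exact hκ2 e (Finset.mem_sdiff.2 ⟨he, h1⟩) e' (Finset.mem_sdiff.2 ⟨he', h2⟩) hne h (by omega)
  have hsec : ∀ e ∈ S, e.2 ∉ U := by
    intro e he h
    have h1 := (hmS e).1 he
    have h2 := hbip _ _ h1.1
    rw [h1.2, hU e.2 h] at h2
    exact h2 rfl
  set L : V × V → Finset C := fun e => if e.1 ∈ U then Pal \ Fb e.1 else Pal with hL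
  obtain ⟨col, hc1, hc2⟩ := MP_db9399_co.galvin (C := C) (fun e : V × V => e.1) (fun e => e.2)
    (fun e => r + 1 - κ' e) (fun e => if e.1 ∈ U then 0 else κ' e + 1) S
    (by
      intro e he e' he' h h'
      have h1 := hκr e he
      have h2 := hκr e' he'
      have h3 : r + 1 - κ' e = r + 1 - κ' e' := h'
      exact hprop e he e' he' (Or.inl h) (by omega))
    (by
      intro e he e' he' h h'
      by_cases h1 : e.1 ∈ U <;> by_cases h2 : e'.1 ∈ U
      · have h3 := ((hmS e).1 he).1
        have h4 := ((hmS e').1 he').1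
        refine Prod.ext (hUN e.2 e.1 h1 e'.1 h2 h3.symm ?_) h
        rw [h]
        exact h4.symm
      · rw [if_pos h1, if_neg h2] at h'
        omega
      · rw [if_neg h1, if_pos h2] at h'
        omega
      · rw [if_neg h1, if_neg h2] at h'
        exact hprop e he e' he' (Or.inr h) (by omega))
    L (by
      intro e he
      by_cases hu : e.1 ∈ U
      · have h1 : (S.filter (fun f => f.2 = e.2 ∧ (if f.1 ∈ U then 0 else κ' f + 1) <
            (if e.1 ∈ U then 0 else κ' e + 1))).card = 0 := by
          rw [Finset.card_eq_zero, Finset.filter_eq_empty_iff]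
          rintro f _ ⟨_, h2⟩
          rw [if_pos hu] at h2
          exact Nat.not_lt_zero _ h2
        have h2 : (S.filter (fun f => f.1 = e.1 ∧ r + 1 - κ' f < r + 1 - κ' e)).card <
            (nb R e.1).card := by
          have h3 : (S.filter (fun f => f.1 = e.1 ∧ r + 1 - κ' f < r + 1 - κ' e)).card ≤
              ((nb R e.1).erase e.2).card := by
            refine Finset.card_le_card_of_injOn (fun f => f.2) ?_ ?_
            · intro f hf
              obtain ⟨h4, h5, h6⟩ := Finset.mem_filter.1 hf
              refine Finset.mem_erase.2 ⟨fun h7 => ?_, (mem_nb R _ _).2 ?_⟩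
              · have : f = e := Prod.ext h5 h7
                rw [this] at h6
                exact lt_irrefl _ h6
              · rw [← h5]
                exact ((hmS f).1 h4).1
            · intro f hf f' hf' h
              exact Prod.ext ((Finset.mem_filter.1 hf).2.1.trans
                (Finset.mem_filter.1 hf').2.1.symm) h
          have h4 : e.2 ∈ nb R e.1 := (mem_nb R _ _).2 ((hmS e).1 he).1
          rw [Finset.card_erase_of_mem h4] at h3
          have := Finset.card_pos.2 ⟨_, h4⟩
          omega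
        have h3 := hUdeg e.1 hu
        have h4 : L e = Pal \ Fb e.1 := if_pos hu
        rw [h4]
        omega
      · have h4 : L e = Pal := if_neg hu
        rw [h4, hPal]
        have hj := hκr e he
        have h1 : (S.filter (fun f => f.1 = e.1 ∧ r + 1 - κ' f < r + 1 - κ' e)).card ≤
            (Finset.Ioc (κ' e) r).card := by
          refine Finset.card_le_card_of_injOn κ' ?_ ?_
          · intro f hf
            obtain ⟨h5, h6, h7⟩ := Finset.mem_filter.1 hf
            have h8 := hκr f h5
            exact Finset.mem_coe.2 (Finset.mem_Ioc.2 ⟨by omega, h8⟩)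
          · intro f hf f' hf' h
            have h5 := Finset.mem_filter.1 hf
            have h6 := Finset.mem_filter.1 hf'
            exact hprop f h5.1 f' h6.1 (Or.inl (h5.2.1.trans h6.2.1.symm)) h
        rw [Nat.card_Ioc] at h1
        have h2 : (S.filter (fun f => f.2 = e.2 ∧ (if f.1 ∈ U then 0 else κ' f + 1) <
            (if e.1 ∈ U then 0 else κ' e + 1))).card ≤ κ' e := by
          rw [if_neg hu]
          by_cases hex : ∃ u ∈ U, R.Adj e.2 u
          · obtain ⟨u, huU, hadj⟩ := hex
            have hnM : ∀ f ∈ S, f.2 = e.2 → f ∉ M := by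
              intro f _ hf2' hfM
              have := (hMU f hfM).2.2.2 u huU
              rw [hf2'] at this
              exact this hadj
            have h5 : S.filter (fun f => f.2 = e.2 ∧ (if f.1 ∈ U then 0 else κ' f + 1) <
                κ' e + 1) ⊆ insert (u, e.2) (S.filter (fun f => f.2 = e.2 ∧ κ' f < κ' e)) := by
              intro f hf
              obtain ⟨h6, h7, h8⟩ := Finset.mem_filter.1 hf
              by_cases hfU : f.1 ∈ U
              · refine Finset.mem_insert.2 (Or.inl (Prod.ext ?_ h7))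
                refine hUN e.2 f.1 hfU u huU ?_ hadj
                rw [← h7]
                exact ((hmS f).1 h6).1.symm
              · rw [if_neg hfU] at h8
                exact Finset.mem_insert_of_mem (Finset.mem_filter.2 ⟨h6, h7, by omega⟩)
            have h6 : (S.filter (fun f => f.2 = e.2 ∧ κ' f < κ' e)).card ≤ κ' e - 1 := by
              have h7 : (S.filter (fun f => f.2 = e.2 ∧ κ' f < κ' e)).card ≤
                  (Finset.Ico 1 (κ' e)).card := by
                refine Finset.card_le_card_of_injOn κ' ?_ ?_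
                · intro f hf
                  obtain ⟨h8, h9, h10⟩ := Finset.mem_filter.1 hf
                  have h11 := hκN f (hnM f h8 h9)
                  exact Finset.mem_coe.2 (Finset.mem_Ico.2 ⟨by omega, h10⟩)
                · intro f hf f' hf' h
                  have h5 := Finset.mem_filter.1 hf
                  have h6 := Finset.mem_filter.1 hf'
                  exact hprop f h5.1 f' h6.1 (Or.inr (h5.2.1.trans h6.2.1.symm)) h
              rw [Nat.card_Ico] at h7
              exact h7
            have h7 := hκN e (hnM e he rfl)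
            refine (Finset.card_le_card h5).trans ((Finset.card_insert_le _ _).trans ?_)
            omega
          · have h5 : (S.filter (fun f => f.2 = e.2 ∧ (if f.1 ∈ U then 0 else κ' f + 1) <
                κ' e + 1)).card ≤ (Finset.range (κ' e)).card := by
              refine Finset.card_le_card_of_injOn κ' ?_ ?_
              · intro f hf
                obtain ⟨h6, h7, h8⟩ := Finset.mem_filter.1 hf
                by_cases hfU : f.1 ∈ U
                · exfalso
                  refine hex ⟨f.1, hfU, ?_⟩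
                  rw [← h7]
                  exact ((hmS f).1 h6).1.symm
                · rw [if_neg hfU] at h8
                  exact Finset.mem_coe.2 (Finset.mem_range.2 (by omega))
              · intro f hf f' hf' h
                have h5 := Finset.mem_filter.1 hf
                have h6 := Finset.mem_filter.1 hf'
                exact hprop f h5.1 f' h6.1 (Or.inr (h5.2.1.trans h6.2.1.symm)) h
            rw [Finset.card_range] at h5
            exact h5
        omega)
  -- the colouring
  let t : V → V → C := fun v w => if sd v = false then col (v, w) else col (w, v)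
  have hs2 : ∀ v w, R.Adj v w → sd v = false → sd w ≠ false := by
    intro v w h hv hw
    exact hbip v w h (hv.trans hw.symm)
  have hs3 : ∀ v w, R.Adj v w → sd v ≠ false → sd w = false := by
    intro v w h hv
    by_contra hw
    have h1 : sd v = true := by
      cases hv' : sd v
      · exact absurd hv' hv
      · rfl
    have h2 : sd w = true := by
      cases hw' : sd w
      · exact absurd hw' hw
      · rfl
    exact hbip v w h (h1.trans h2.symm)
  let t' : V → V → C := fun v w => if R.Adj v w then t v w else Classical.arbitrary C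
  have ht1 : ∀ v w, R.Adj v w → sd v = false → t' v w = col (v, w) := by
    intro v w h hv
    simp only [t', t, if_pos h, if_pos hv]
  have ht2 : ∀ v w, R.Adj v w → sd v ≠ false → t' v w = col (w, v) := by
    intro v w h hv
    simp only [t', t, if_pos h, if_neg hv]
  refine ⟨t', ?_, ?_, ?_, ?_⟩
  · intro v w
    by_cases h : R.Adj v w
    · by_cases hv : sd v = false
      · rw [ht1 v w h hv, ht2 w v h.symm (hs2 v w h hv)]
      · rw [ht2 v w h hv, ht1 w v h.symm (hs3 v w h hv)]
    · simp only [t', if_neg h, if_neg fun h' : R.Adj w v => h h'.symm]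
  · intro v w h
    have hsub : ∀ e, L e ⊆ Pal := by
      intro e
      simp only [hL]
      split_ifs
      · exact Finset.sdiff_subset
      · exact Finset.Subset.refl _
    by_cases hv : sd v = false
    · rw [ht1 v w h hv]
      exact hsub _ (hc1 _ ((hmS (v, w)).2 ⟨h, hv⟩))
    · rw [ht2 v w h hv]
      exact hsub _ (hc1 _ ((hmS (w, v)).2 ⟨h.symm, hs3 v w h hv⟩))
  · intro u hu w h
    rw [ht1 u w h (hU u hu)]
    have h1 := hc1 _ ((hmS (u, w)).2 ⟨h, hU u hu⟩)
    have h2 : L (u, w) = Pal \ Fb u := if_pos hu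
    rw [h2] at h1
    exact (Finset.mem_sdiff.1 h1).2
  · intro v w w' h h' hne
    by_cases hv : sd v = false
    · rw [ht1 v w h hv, ht1 v w' h' hv]
      exact hc2 _ ((hmS (v, w)).2 ⟨h, hv⟩) _ ((hmS (v, w')).2 ⟨h', hv⟩)
        (fun h1 => hne (congrArg Prod.snd h1)) (Or.inl rfl)
    · rw [ht2 v w h hv, ht2 v w' h' hv]
      exact hc2 _ ((hmS (w, v)).2 ⟨h.symm, hs3 v w h hv⟩) _
        ((hmS (w', v)).2 ⟨h'.symm, hs3 v w' h' hv⟩)
        (fun h1 => hne (congrArg Prod.fst h1)) (Or.inr rfl)

end Pool.Agent.Work.MP_db9399_fh
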